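import Pool.Agent.Lib.MP_56e41f_co.Bridge
import Pool.Agent.Lib.MP_56e41f_co.AllCase

/-!
# Trees in random subgraphs of arbitrary graphs
-/

set_option autoImplicit false

open Finset Pool.Agent.Lib.MP_56e41f_co

namespace Pool.Agent.Results.MP_56e41f_co.AllHosts

/-- the colour classes of a tree are the classes of even and odd depth -/
theorem classes {t Δ : ℕ} (D : TD t Δ) {W : Type} (e : Fin t ≃ W) (T : SimpleGraph W)
    (hadj : ∀ i, i.val ≠ 0 → T.Adj (e (D.par i)) (e i)) (A : Finset W)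
    (hA : ∀ u v, T.Adj u v → (u ∈ A ↔ v ∉ A)) (z : Fin t) (hz : z.val = 0) :
    ∀ (k : ℕ) (i : Fin t), D.dep i = k → (e i ∈ A ↔ (D.dep i % 2 = 0 ↔ e z ∈ A)) := by
  intro k
  induction k with
  | zero =>
    intro i hi
    have h1 := (D.dep_zero i).mp hi
    have h2 : i = z := Fin.ext (by rw [h1, hz])
    rw [hi, h2]
    simp
  | succ k ih =>
    intro i hi
    have h1 : i.val ≠ 0 := by
      intro h
      rw [(D.dep_zero i).mpr h] at hi
      exact absurd hi (by omega)
    have h2 := D.dep_par i h1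
    have h3 := ih (D.par i) (by omega)
    have h4 := hA _ _ (hadj i h1)
    have h5 : D.dep i % 2 = 0 ↔ ¬ D.dep (D.par i) % 2 = 0 := by omega
    rw [h5]
    tauto

/-- For every `c > 0` and every large `K`, uniformly over ALL graphs `G` on `n` vertices, of average
degree `d`, all trees `T` with colour classes of sizes `x, y` such that
`(√x + √y) ^ 2 ≤ (1 - c) d` and maximum degree at most `Δ`, and all `p ≥ K Δ / d`, the probability
that `G_p` contains a copy of `T` tends to `1` as `n → ∞`. -/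
theorem result : ∀ c : ℝ, 0 < c → ∃ K₀ : ℝ, ∀ K : ℝ, K₀ ≤ K → ∀ ε : ℝ, 0 < ε → ∃ n₀ : ℕ,
    ∀ (n : ℕ) (G : SimpleGraph (Fin n)) (t : ℕ) (T : SimpleGraph (Fin t)) (A : Finset (Fin t))
      (Δ : ℕ) (d p : ℝ),
      n₀ ≤ n → d = 2 * (G.edgeSet.ncard : ℝ) / n →
      T.IsTree → (∀ u v, T.Adj u v → (u ∈ A ↔ v ∉ A)) →
      (√(A.card : ℝ) + √((t : ℝ) - A.card)) ^ 2 ≤ (1 - c) * d →
      (∀ v, (T.neighborSet v).ncard ≤ Δ) →
      K * Δ / d ≤ p → p ≤ 1 →
      1 - ε ≤ percProb G p (fun H => T.IsContained H) := by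
  classical
  intro c hc
  have hcardle : ∀ (t : ℕ) (A : Finset (Fin t)), (0 : ℝ) ≤ (t : ℝ) - A.card := by
    intro t A
    have h1 := card_le_univ A
    rw [Fintype.card_fin] at h1
    have : (A.card : ℝ) ≤ t := by exact_mod_cast h1
    linarith
  have hsq : ∀ (t : ℕ) (A : Finset (Fin t)),
      (t : ℝ) ≤ (√(A.card : ℝ) + √((t : ℝ) - A.card)) ^ 2 := by
    intro t A
    have h1 := Real.sq_sqrt (Nat.cast_nonneg (α := ℝ) A.card)
    have h2 := Real.sq_sqrt (hcardle t A)
    have h3 : 0 ≤ √(A.card : ℝ) * √((t : ℝ) - A.card) := by positivity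
    nlinarith
  by_cases hc1 : c < 1
  swap
  · refine ⟨0, fun K hK ε hε => ⟨0, ?_⟩⟩
    intro n G t T A Δ d p hn hd hT hA ht hΔ hp hp1
    exfalso
    have hne := hT.1.nonempty
    obtain ⟨x⟩ := hne
    have h1 : (1 : ℝ) ≤ t := by exact_mod_cast (lt_of_le_of_lt (Nat.zero_le _) x.2)
    have h2 : 0 ≤ d := by rw [hd]; positivity
    have h3 : (1 - c) * d ≤ 0 := mul_nonpos_of_nonpos_of_nonneg (by linarith) h2
    have h4 := hsq t A
    linarith
  obtain ⟨K0, hK0, hmain⟩ := all_case c hc hc1
  refine ⟨K0, fun K hK ε hε => ?_⟩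
  obtain ⟨n0, hn0⟩ := hmain K hK ε hε
  refine ⟨n0 + 1, ?_⟩
  intro n G t T A Δ d p hn hd hT hA ht hΔ hp hp1
  have hnpos : 0 < n := by omega
  have : Nonempty (Fin n) := ⟨⟨0, hnpos⟩⟩
  obtain ⟨x⟩ := hT.1.nonempty
  have ht1 : 1 ≤ t := lt_of_le_of_lt (Nat.zero_le _) x.2
  have ht1' : (1 : ℝ) ≤ t := by exact_mod_cast ht1
  rcases Nat.eq_or_lt_of_le ht1 with ht1'' | ht2
  · exact percProb_one G T (by rw [Fintype.card_fin]; exact ht1''.symm) hε
  have hΔ1 : 1 ≤ Δ := one_le_of_tree T hT (by rw [Fintype.card_fin]; exact ht2) hΔ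
  have hd0 : 0 < d := by
    by_contra hh
    push Not at hh
    have h5 : (1 - c) * d ≤ 0 := mul_nonpos_of_nonneg_of_nonpos (by linarith) hh
    have h4 := hsq t A
    linarith
  obtain ⟨D, e, hadj, he⟩ := exists_TD T hT Δ hΔ
  have hp0 : 0 ≤ p := by
    refine le_trans ?_ hp
    have : 0 ≤ K := by linarith
    positivity
  refine percProb_ge G T D e he hp0 hp1 ?_
  have hcard : (G.edgeFinset.card : ℝ) = G.edgeSet.ncard := by
    rw [Set.ncard_eq_toFinset_card']
    congr 2
  refine hn0 (Fin n) (Fintype.card (Fin t)) Δ D G.edgeFinset d p (by rw [Fintype.card_fin]; omega)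
    (by rw [Fintype.card_fin]; exact ht2) hΔ1 ?_ hd0 ?_ hp hp1 ?_
  · intro x
    simp
  · rw [Fintype.card_fin, hcard, hd]
    have : (0 : ℝ) < n := by exact_mod_cast hnpos
    apply le_of_eq
    field_simp
  · have hz : 0 < Fintype.card (Fin t) := by rw [Fintype.card_fin]; omega
    have hcl : ∀ i, (e i ∈ A ↔ (D.dep i % 2 = 0 ↔ e ⟨0, hz⟩ ∈ A)) := fun i =>
      classes D e T hadj A hA ⟨0, hz⟩ rfl _ i rfl
    have hsum : (evn D : ℝ) + odn D = t := by
      have h1 : evn D + odn D = t := (evn_add_odn D).trans (Fintype.card_fin t)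
      exact_mod_cast h1
    have hAc : A.card = (univ.filter (fun i => e i ∈ A)).card := by
      rw [← card_map e.toEmbedding]
      congr 1
      ext v
      rw [mem_map]
      constructor
      · intro hv
        exact ⟨e.symm v, by simp [hv], by simp⟩
      · rintro ⟨i, hi, rfl⟩
        rw [mem_filter] at hi
        exact hi.2
    by_cases h0 : e ⟨0, hz⟩ ∈ A
    · have h1 : A.card = evn D := by
        rw [hAc]
        unfold evn
        congr 1
        refine filter_congr (fun i _ => ?_)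
        rw [hcl i]
        tauto
      have h2 : (odn D : ℝ) = (t : ℝ) - A.card := by rw [h1]; linarith
      rw [h2, ← h1]
      exact ht
    · have h1 : A.card = odn D := by
        rw [hAc]
        unfold odn
        congr 1
        refine filter_congr (fun i _ => ?_)
        rw [hcl i]
        constructor
        · intro h
          have : ¬ D.dep i % 2 = 0 := fun h' => h0 (h.mp h')
          omega
        · intro h
          constructor
          · intro h'
            omega
          · intro h'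
            exact absurd h' h0
      have h2 : (evn D : ℝ) = (t : ℝ) - A.card := by rw [h1]; linarith
      rw [h2, ← h1, add_comm]
      exact ht

end Pool.Agent.Results.MP_56e41f_co.AllHosts
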