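import Pool.Agent.Lib.MP_56e41f_co.Bridge

/-!
# Trees in random subgraphs of graphs of large minimum degree
-/

set_option autoImplicit false

open Finset Pool.Agent.Lib.MP_56e41f_co

namespace Pool.Agent.Results.MP_56e41f_co.MinDegreeHosts

/-- Q1 for host graphs whose minimum degree is at least `(1 - c / 2) d` (for instance all regular
graphs): for every `c > 0` and every large `K`, uniformly over all graphs `G` on `n` vertices with
all degrees at least `(1 - c / 2) d`, all trees `T` with at most `(1 - c) d` vertices and maximum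
degree at most `Δ`, and all `p ≥ K Δ / d`, the probability that `G_p` contains a copy of `T` tends
to `1` as `n → ∞`. -/
theorem result : ∀ c : ℝ, 0 < c → ∃ K₀ : ℝ, ∀ K : ℝ, K₀ ≤ K → ∀ ε : ℝ, 0 < ε → ∃ n₀ : ℕ,
    ∀ (n : ℕ) (G : SimpleGraph (Fin n)) (t : ℕ) (T : SimpleGraph (Fin t)) (Δ : ℕ) (d p : ℝ),
      n₀ ≤ n → 0 ≤ d → (∀ v, (1 - c / 2) * d ≤ ((G.neighborSet v).ncard : ℝ)) →
      T.IsTree → (t : ℝ) ≤ (1 - c) * d → (∀ v, (T.neighborSet v).ncard ≤ Δ) →
      K * Δ / d ≤ p → p ≤ 1 →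
      1 - ε ≤ percProb G p (fun H => T.IsContained H) := by
  classical
  intro c hc
  by_cases hc1 : c < 1
  swap
  · refine ⟨0, fun K hK ε hε => ⟨0, ?_⟩⟩
    intro n G t T Δ d p hn h2 hG hT ht hΔ hp hp1
    exfalso
    have hne := hT.1.nonempty
    obtain ⟨x⟩ := hne
    have h1 : (1 : ℝ) ≤ t := by exact_mod_cast (lt_of_le_of_lt (Nat.zero_le _) x.2)
    have h3 : (1 - c) * d ≤ 0 := mul_nonpos_of_nonpos_of_nonneg (by linarith) h2
    linarith
  obtain ⟨K0, hK0, hmain⟩ := mindeg_case c hc hc1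
  refine ⟨K0, fun K hK ε hε => ?_⟩
  obtain ⟨n0, hn0⟩ := hmain K hK ε hε
  refine ⟨n0 + 1, ?_⟩
  intro n G t T Δ d p hn hd hG hT ht hΔ hp hp1
  have hnpos : 0 < n := by omega
  have : Nonempty (Fin n) := ⟨⟨0, hnpos⟩⟩
  obtain ⟨x⟩ := hT.1.nonempty
  have ht1 : 1 ≤ t := lt_of_le_of_lt (Nat.zero_le _) x.2
  have ht1' : (1 : ℝ) ≤ t := by exact_mod_cast ht1
  rcases Nat.eq_or_lt_of_le ht1 with ht1'' | ht2
  · exact percProb_one G T (by rw [Fintype.card_fin]; exact ht1''.symm) hε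
  have hΔ1 : 1 ≤ Δ := one_le_of_tree T hT (by rw [Fintype.card_fin]; exact ht2) hΔ
  have hd0 : 0 < d := by
    by_contra hh
    push Not at hh
    have : (1 - c) * d ≤ 0 := mul_nonpos_of_nonneg_of_nonpos (by linarith) hh
    linarith
  obtain ⟨D, e, hadj, he⟩ := exists_TD T hT Δ hΔ
  have hp0 : 0 ≤ p := by
    refine le_trans ?_ hp
    have : 0 ≤ K := by linarith
    positivity
  refine percProb_ge G T D e he hp0 hp1 ?_
  refine hn0 (Fin n) (Fintype.card (Fin t)) Δ D G.edgeFinset d p (by rw [Fintype.card_fin]; omega)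
    (by rw [Fintype.card_fin]; exact ht2) hΔ1 ?_ hd0 ?_ hp hp1
    (by rw [Fintype.card_fin]; exact ht)
  · intro x
    simp
  · intro x
    refine le_trans (hG x) ?_
    rw [← count_eq_degree G x]
    apply le_of_eq
    congr!

end Pool.Agent.Results.MP_56e41f_co.MinDegreeHosts
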